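import Mathlib
import Pool.Agent.Y22.LG7

set_option autoImplicit false

/-!
# Lang's inequality for almost all elements of a real number field

Let `1, θ_1, ..., θ_n` be real algebraic numbers which are linearly independent over `ℚ`, for instance a
basis of a real number field of degree `n + 1`. Up to integers there are about `X = N (2 H + 1) ^ n`
numbers `(a + x_1 θ_1 + ... + x_n θ_n) / N` with `|x_i| ≤ H`. For every `κ < 1` and `ε > 0`, all but a
small proportion of them satisfy Lang's inequality `|ξ - p / q| > c / (q ^ 2 (log q) ^ (1 + ε))`, with one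
constant `c`, for all denominators `q` up to `(N H ^ n) ^ κ`, uniformly in `N` and `H`.

The proof: the number of exceptions for one denominator is bounded by Fejer's kernel; the Fourier
coefficients give products of reciprocals of the distances of `m θ_i` to the nearest integer, which are
summed over `m ≤ M` by the pigeonhole principle and Schmidt's theorem (from the subspace theorem), and
the fractions `h q / gcd (q, N)` are regrouped with the divisor bound.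
-/

namespace Pool.Agent.Results.MP_c307ca_nt.AlmostAllFieldElements

open Pool.Agent.Y22.LG

theorem result {n : ℕ} (θ : Fin n → ℝ) (halg : ∀ i, IsAlgebraic ℚ (θ i))
    (hind : LinearIndependent ℚ (Fin.cons 1 θ : Fin (n + 1) → ℝ)) (κ ε η : ℝ) (hκ : κ < 1)
    (hε : 0 < ε) (hη : 0 < η) :
    ∃ c : ℝ, 0 < c ∧ ∀ N H : ℕ, 1 ≤ N → 1 ≤ H →
      {z : ℕ × (Fin n → ℤ) | z.1 < N ∧ (∀ i, |z.2 i| ≤ (H : ℤ)) ∧ z.2 ≠ 0 ∧
        ∃ (p : ℤ) (q : ℕ), 2 ≤ q ∧ (q : ℝ) ≤ ((N : ℝ) * (H : ℝ) ^ n) ^ κ ∧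
          |((z.1 : ℝ) + ∑ i, z.2 i * θ i) / N - p / q| ≤
            c / ((q : ℝ) ^ 2 * Real.log q ^ (1 + ε))}.Finite ∧
      ({z : ℕ × (Fin n → ℤ) | z.1 < N ∧ (∀ i, |z.2 i| ≤ (H : ℤ)) ∧ z.2 ≠ 0 ∧
        ∃ (p : ℤ) (q : ℕ), 2 ≤ q ∧ (q : ℝ) ≤ ((N : ℝ) * (H : ℝ) ^ n) ^ κ ∧
          |((z.1 : ℝ) + ∑ i, z.2 i * θ i) / N - p / q| ≤
            c / ((q : ℝ) ^ 2 * Real.log q ^ (1 + ε))}.ncard : ℝ) ≤ η * ((N : ℝ) * (H : ℝ) ^ n) := by
  classical
  have heq : ∀ (c : ℝ) (N H : ℕ), {z : ℕ × (Fin n → ℤ) | z.1 < N ∧ (∀ i, |z.2 i| ≤ (H : ℤ)) ∧ z.2 ≠ 0 ∧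
        ∃ (p : ℤ) (q : ℕ), 2 ≤ q ∧ (q : ℝ) ≤ ((N : ℝ) * (H : ℝ) ^ n) ^ κ ∧
          |((z.1 : ℝ) + ∑ i, z.2 i * θ i) / N - p / q| ≤
            c / ((q : ℝ) ^ 2 * Real.log q ^ (1 + ε))} = (Bad θ κ ε c N H : Set (ℕ × (Fin n → ℤ))) := by
    intro c N H
    ext z
    unfold Bad Box
    simp only [Set.mem_ofPred_eq, Finset.coe_filter, Finset.mem_product, Finset.mem_range,
      Fintype.mem_piFinset, Finset.mem_Icc, abs_le]
    exact and_assoc.symm
  obtain ⟨c, hc, h⟩ : ∃ c : ℝ, 0 < c ∧ ∀ N H : ℕ, 1 ≤ N → 1 ≤ H →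
      ((Bad θ κ ε c N H).card : ℝ) ≤ η * ((N : ℝ) * (H : ℝ) ^ n) := by
    rcases n with _ | n
    · refine ⟨1, one_pos, fun N H hN hH => ?_⟩
      have h1 : Bad θ κ ε 1 N H = ∅ := by
        unfold Bad
        rw [Finset.filter_eq_empty_iff]
        rintro z _ ⟨h2, _⟩
        exact h2 (Subsingleton.elim _ _)
      rw [h1]
      simp only [Finset.card_empty, Nat.cast_zero]
      positivity
    · exact main halg (ind_of_linearIndependent hind) hκ hε hη
  refine ⟨c, hc, fun N H hN hH => ?_⟩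
  rw [heq c N H, Set.ncard_coe_finset]
  exact ⟨Finset.finite_toSet _, h N H hN hH⟩

end Pool.Agent.Results.MP_c307ca_nt.AlmostAllFieldElements
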